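import Pool.Agent.Y874.TP2.Defs

/-!
# Movies without monogons and bigons among the double curves near the boundary

The double curves of the projection are divided into two kinds, by the set `Z` of colours. There are
no conditions on triple points at which at least two of the three double curves have colours in `Z`.
-/

namespace Pool.Agent.Y874.TP4

open Pool.Agent.Y468.SR
open Pool.Agent.Y874.TP (colour TriAt)
open Pool.Agent.Y874.TP2 (CStep prs)

/-- `SMovie handles Z D T`: the classical link `D` bounds disjoint connected surfaces, one for each
label, by a movie ending with the empty diagram, in which births are allowed. For each triple point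
of the projection (move of type III), either at least two of the three double curves through this
point have colours in `Z`, or the three double curves have colours outside `Z`. In the surfaces, no
curve of double points with colour outside `Z` crosses itself at triple points of the second kind,
and any two of these curves cross at most once at such points; `T` is the list of the pairs of
these curves crossing one another. If `handles = false`, the surfaces are planar. If `handles = true`,
a component may be cut into two components of the boundary of the same piece of surface, one of which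
passes only through crossings with colours in `Z`. -/
inductive SMovie (handles : Bool) (Z : ℕ → Prop) : Code → List (Sym2 (ℕ × Bool)) → Prop
  | nil : SMovie handles Z [] []
  | step {D D' : Code} {T : List (Sym2 (ℕ × Bool))} (h : Classical D) (hs : CStep D D')
      (hm : SMovie handles Z D' T) : SMovie handles Z D T
  | three {D D' : Code} {T : List (Sym2 (ℕ × Bool))} (h : Classical D) (A B C E : List (Pass ⊕ ℕ))
      (X Y W t m b : Pass × Pass) (x y z : ℕ) (hT : TriAt x y z t m b)
      (hP : List.Perm [X, Y, W] [t, m, b])
      (hD : enc D = A ++ two X.1 X.2 ++ B ++ two Y.1 Y.2 ++ C ++ two W.1 W.2 ++ E)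
      (hD' : enc D' = A ++ two X.2 X.1 ++ B ++ two Y.2 Y.1 ++ C ++ two W.2 W.1 ++ E)
      (hZ : ¬Z (colour x) ∧ ¬Z (colour y) ∧ ¬Z (colour z))
      (hd : ∀ e ∈ prs x y z, ¬e.IsDiag) (hn : (prs x y z ++ T).Nodup)
      (hm : SMovie handles Z D' T) : SMovie handles Z D (prs x y z ++ T)
  | inner {D D' : Code} {T : List (Sym2 (ℕ × Bool))} (h : Classical D) (A B C E : List (Pass ⊕ ℕ))
      (X Y W t m b : Pass × Pass) (x y z : ℕ) (hT : TriAt x y z t m b)
      (hP : List.Perm [X, Y, W] [t, m, b])
      (hD : enc D = A ++ two X.1 X.2 ++ B ++ two Y.1 Y.2 ++ C ++ two W.1 W.2 ++ E)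
      (hD' : enc D' = A ++ two X.2 X.1 ++ B ++ two Y.2 Y.1 ++ C ++ two W.2 W.1 ++ E)
      (hZ : Z (colour x) ∧ Z (colour y) ∨ Z (colour x) ∧ Z (colour z) ∨ Z (colour y) ∧ Z (colour z))
      (hm : SMovie handles Z D' T) : SMovie handles Z D T
  | handle {R : Code} {T : List (Sym2 (ℕ × Bool))} (x y : List Pass) (b : ℕ) (hh : handles = true)
      (h : Classical ((x ++ y, b) :: R)) (hy : ∀ p ∈ y, Z (colour p.crossing))
      (hm : SMovie handles Z ((x, b) :: (y, b) :: R) T) : SMovie handles Z ((x ++ y, b) :: R) T

end Pool.Agent.Y874.TP4
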