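import Pool.Agent.Y874.TP4.Lift
import Pool.Agent.Y874.TP2.Final

/-! Project TP4: assembly. -/

namespace Pool.Agent.Y874.TP2.T4

open Pool.Agent.Y468.SR
open Pool.Agent.Y874.TP

theorem movie_of_smovie {hd : Bool} {Z : ℕ → Prop} {D : Code} {T : List (Sym2 (ℕ × Bool))}
    (h : TP4.SMovie hd Z D T) (hZ : ∀ p ∈ passes D, ¬Z (colour p.crossing))
    (hn : (D.map Prod.snd).Nodup) : Movie true false D [] := by
  obtain ⟨Ts, h1, h2, h5, h6⟩ := smovie_inv RD.reid RN.ren TH.three h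
  rw [del_eq hZ] at h1
  have h8 : Inv3 D Ts := ⟨h1.wf, h1.ok, by rw [h2]; exact h5, by rw [h2]; exact h6, h1.inv⟩
  exact movie_of_inv3 RD.reid CT.cut OT.out_inv Pool.Agent.Y333.TP.mid_planar
    Pool.Agent.Y514.TP.out_planar Pool.Agent.Y210.TP.move junc _ _ D Ts rfl rfl
    (smovie_classical h) hn h8

end Pool.Agent.Y874.TP2.T4
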