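import Pool.Agent.Y874.TP4.Defs
import Pool.Agent.Y874.TP3.Lift

/-! Project TP4: the crossings with colours in `Z` are deleted. -/

namespace Pool.Agent.Y874.TP2.T4

open Pool.Agent.Y468.SR
open Pool.Agent.Y874.TP
open Pool.Agent.Y874.TP2.T3

open Classical in
/-- the word without the passages with colours in `Z` -/
noncomputable def dw (Z : ℕ → Prop) (w : List Pass) : List Pass :=
  w.filter fun p => decide (¬Z (colour p.crossing))

/-- the code without the crossings with colours in `Z` -/
noncomputable def del (Z : ℕ → Prop) (D : Code) : Code := D.map fun C => (dw Z C.1, C.2)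

open Classical in
/-- the same for encoded diagrams -/
noncomputable def de (Z : ℕ → Prop) (E : List (Pass ⊕ ℕ)) : List (Pass ⊕ ℕ) :=
  E.filter fun s => decide (∀ p, s = Sum.inl p → ¬Z (colour p.crossing))

variable {Z : ℕ → Prop}

theorem mem_dw {w : List Pass} {p : Pass} : p ∈ dw Z w ↔ p ∈ w ∧ ¬Z (colour p.crossing) := by
  simp [dw]

theorem dw_append (x y : List Pass) : dw Z (x ++ y) = dw Z x ++ dw Z y := by
  simp [dw]

theorem dw_nil : dw Z [] = [] := rfl

theorem dw_cons_pos {p : Pass} {w : List Pass} (h : Z (colour p.crossing)) :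
    dw Z (p :: w) = dw Z w := by
  simp [dw, h]

theorem dw_cons_neg {p : Pass} {w : List Pass} (h : ¬Z (colour p.crossing)) :
    dw Z (p :: w) = p :: dw Z w := by
  simp [dw, h]

theorem dw_eq_nil {w : List Pass} (h : ∀ p ∈ w, Z (colour p.crossing)) : dw Z w = [] := by
  simpa [dw] using h

theorem dw_eq {w : List Pass} (h : ∀ p ∈ w, ¬Z (colour p.crossing)) : dw Z w = w := by
  rw [dw, List.filter_eq_self]
  simpa using h

theorem de_append (A B : List (Pass ⊕ ℕ)) : de Z (A ++ B) = de Z A ++ de Z B := by
  simp [de]

theorem de_inr (b : ℕ) : de Z [Sum.inr b] = [Sum.inr b] := by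
  simp [de]

theorem de_map (w : List Pass) : de Z (w.map Sum.inl) = (dw Z w).map Sum.inl := by
  induction w with
  | nil => rfl
  | cons p w ih =>
    by_cases h : Z (colour p.crossing) <;>
      simp_all [de, dw]

theorem enc_del (D : Code) : enc (del Z D) = de Z (enc D) := by
  induction D with
  | nil => rfl
  | cons C D ih =>
    simp only [enc, del, List.map_cons, List.flatMap_cons] at ih ⊢
    rw [ih, de_append, de_append, de_inr, de_map]

theorem de_two_keep {p q : Pass} (hp : ¬Z (colour p.crossing)) (hq : ¬Z (colour q.crossing)) :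
    de Z (two p q) = two p q := by
  simp [de, two, hp, hq]

theorem de_two_nil {p q : Pass} (hp : Z (colour p.crossing)) (hq : Z (colour q.crossing)) :
    de Z (two p q) = [] := by
  simp [de, two, hp, hq]

theorem de_two_swap {p q : Pass} (h : Z (colour p.crossing) ∨ Z (colour q.crossing)) :
    de Z (two p q) = de Z (two q p) := by
  by_cases hp : Z (colour p.crossing) <;> by_cases hq : Z (colour q.crossing)
  · simp [de, two, hp, hq]
  · simp [de, two, hp, hq]
  · simp [de, two, hp, hq]
  · exact absurd h (by simp [hp, hq])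

theorem enc_inj {D D' : Code} (h : enc D = enc D') : D = D' := by
  have key : ∀ (w w' : List Pass) (b b' : ℕ) (l l' : List (Pass ⊕ ℕ)),
      w.map Sum.inl ++ Sum.inr b :: l = w'.map Sum.inl ++ Sum.inr b' :: l' →
      w = w' ∧ b = b' ∧ l = l' := by
    intro w
    induction w with
    | nil =>
      intro w' b b' l l' h
      rcases w' with _ | ⟨p, w'⟩
      · simp at h; exact ⟨rfl, h.1, h.2⟩
      · simp at h
    | cons p w ih =>
      intro w' b b' l l' h
      rcases w' with _ | ⟨p', w'⟩
      · simp at h
      · simp only [List.map_cons, List.cons_append, List.cons.injEq, Sum.inl.injEq] at h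
        obtain ⟨h1, h2, h3⟩ := ih w' b b' l l' h.2
        exact ⟨by rw [h.1, h1], h2, h3⟩
  induction D generalizing D' with
  | nil =>
    rcases D' with _ | ⟨C', D'⟩
    · rfl
    · simp [enc] at h
  | cons C D ih =>
    rcases D' with _ | ⟨C', D'⟩
    · simp [enc] at h
    · simp only [enc, List.flatMap_cons, List.append_assoc, List.singleton_append] at h ih
      obtain ⟨h1, h2, h3⟩ := key _ _ _ _ _ _ h
      rw [ih h3, Prod.ext h1 h2]

theorem passes_del (D : Code) : passes (del Z D) = dw Z (passes D) := by
  induction D with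
  | nil => rfl
  | cons C D ih =>
    simp only [passes, del, List.map_cons, List.flatMap_cons] at ih ⊢
    rw [ih, dw_append]

theorem wf_del {D : Code} (h : WF (passes D)) : WF (passes (del Z D)) := by
  rw [passes_del]
  refine ⟨fun p hp => ?_, ?_⟩
  · rw [mem_dw] at hp ⊢
    exact ⟨h.1 p hp.1, hp.2⟩
  · exact (List.filter_sublist.map _).nodup h.2

theorem del_eq {D : Code} (h : ∀ p ∈ passes D, ¬Z (colour p.crossing)) : del Z D = D := by
  unfold del
  conv_rhs => rw [← List.map_id D]
  refine List.map_congr_left fun C hC => ?_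
  rw [dw_eq fun p hp => h p (mem_passes.2 ⟨C, hC, hp⟩)]
  rfl

theorem del_cons (w : List Pass) (b : ℕ) (R : Code) :
    del Z ((w, b) :: R) = (dw Z w, b) :: del Z R := rfl

theorem creid_del {E E' : List (Pass ⊕ ℕ)} (h : CReid E E') :
    CReid (de Z E) (de Z E') ∨ de Z E = de Z E' := by
  cases h with
  | one A B p hc =>
    by_cases hp : Z (colour p.crossing)
    · right
      have h1 : de Z (two p p.mate) = [] := de_two_nil hp hp
      simp only [de_append, h1, List.append_nil]
    · left
      have h1 : de Z (two p p.mate) = two p p.mate := de_two_keep hp hp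
      simp only [de_append, h1]
      exact .one _ _ p hc
  | twoSame A B C p q h ho hs hc =>
    by_cases hp : Z (colour p.crossing)
    · right
      have hq : Z (colour q.crossing) := hc ▸ hp
      have h1 : de Z (two p q) = [] := de_two_nil hp hq
      have h2 : de Z (two p.mate q.mate) = [] := de_two_nil hp hq
      simp only [de_append, h1, h2, List.append_nil]
    · left
      have hq : ¬Z (colour q.crossing) := hc ▸ hp
      have h1 : de Z (two p q) = two p q := de_two_keep hp hq
      have h2 : de Z (two p.mate q.mate) = two p.mate q.mate := de_two_keep hp hq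
      simp only [de_append, h1, h2]
      exact .twoSame _ _ _ p q h ho hs hc
  | twoOpp A B C p q h ho hs hc =>
    by_cases hp : Z (colour p.crossing)
    · right
      have hq : Z (colour q.crossing) := hc ▸ hp
      have h1 : de Z (two p q) = [] := de_two_nil hp hq
      have h2 : de Z (two q.mate p.mate) = [] := de_two_nil hq hp
      simp only [de_append, h1, h2, List.append_nil]
    · left
      have hq : ¬Z (colour q.crossing) := hc ▸ hp
      have h1 : de Z (two p q) = two p q := de_two_keep hp hq
      have h2 : de Z (two q.mate p.mate) = two q.mate p.mate := de_two_keep hq hp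
      simp only [de_append, h1, h2]
      exact .twoOpp _ _ _ p q h ho hs hc

theorem cstep_del {D D' : Code} (hs : CStep D D') :
    CStep (del Z D) (del Z D') ∨ del Z D = del Z D' := by
  cases hs with
  | perm _ _ hp => exact .inl (.perm _ _ (hp.map _))
  | rename f _ hf hc =>
    left
    have e : del Z (renamed f D) = renamed f (del Z D) := by
      unfold del renamed
      rw [List.map_map, List.map_map]
      refine List.map_congr_left fun C hC => ?_
      simp only [Function.comp, Prod.mk.injEq, and_true]
      have : ∀ w : List Pass, (∀ p ∈ w, p ∈ passes D) →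
          dw Z (w.map fun p => (⟨f p.crossing, p.isOver, p.isPos⟩ : Pass)) =
          (dw Z w).map fun p => (⟨f p.crossing, p.isOver, p.isPos⟩ : Pass) := by
        intro w
        induction w with
        | nil => intro _; rfl
        | cons p w ih =>
          intro hw
          have h1 := hc p (hw p (by simp))
          have h2 := ih fun q hq => hw q (by simp [hq])
          rw [List.map_cons]
          by_cases hz : Z (colour p.crossing)
          · rw [dw_cons_pos hz, dw_cons_pos (by simp only; rw [h1]; exact hz), h2]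
          · rw [dw_cons_neg hz, dw_cons_neg (by simp only; rw [h1]; exact hz), h2, List.map_cons]
      exact this C.1 fun p hp => mem_passes.2 ⟨C, hC, hp⟩
    rw [e]
    refine .rename f _ (fun p hp q hq => ?_) fun p hp => ?_
    · rw [passes_del, mem_dw] at hp hq
      exact hf p hp.1 q hq.1
    · rw [passes_del, mem_dw] at hp
      exact hc p hp.1
  | rotate x y b R =>
    left
    rw [del_cons, del_cons, dw_append, dw_append]
    exact .rotate _ _ _ _
  | reid _ _ h =>
    rcases creid_del (Z := Z) h with h1 | h1
    · exact .inl (.reid _ _ (by rw [enc_del, enc_del]; exact h1))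
    · exact .inr (enc_inj (by rw [enc_del, enc_del]; exact h1))
  | reidInv _ _ h =>
    rcases creid_del (Z := Z) h with h1 | h1
    · exact .inl (.reidInv _ _ (by rw [enc_del, enc_del]; exact h1))
    · exact .inr (enc_inj (by rw [enc_del, enc_del]; exact h1.symm))
  | death b R hb =>
    left
    rw [del_cons, dw_nil]
    refine .death b _ fun C hC => ?_
    obtain ⟨C', hC', rfl⟩ := List.mem_map.1 hC
    exact hb C' hC'
  | birth b R hb =>
    left
    rw [del_cons, dw_nil]
    obtain ⟨C, hC, h⟩ := hb
    exact .birth b _ ⟨_, List.mem_map_of_mem hC, h⟩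
  | split x y b b' R hb =>
    left
    rw [del_cons, del_cons, del_cons, dw_append]
    have e : del Z (R.map fun C => (C.1, if C.2 = b' then b else C.2)) =
        (del Z R).map fun C => (C.1, if C.2 = b' then b else C.2) := by
      unfold del
      rw [List.map_map, List.map_map]
      rfl
    rw [e]
    exact .split _ _ b b' _ hb
  | merge x y b R =>
    left
    rw [del_cons, del_cons, del_cons, dw_append]
    exact .merge _ _ _ _

theorem triAt_crossing {x y z : ℕ} {t m b : Pass × Pass} (h : TriAt x y z t m b) :
    (t.1.crossing = x ∧ t.2.crossing = y ∨ t.1.crossing = y ∧ t.2.crossing = x) ∧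
    (m.1.crossing = x ∧ m.2.crossing = z ∨ m.1.crossing = z ∧ m.2.crossing = x) ∧
    (b.1.crossing = y ∧ b.2.crossing = z ∨ b.1.crossing = z ∧ b.2.crossing = y) := by
  cases h
  refine ⟨?_, ?_, ?_⟩ <;> split_ifs <;> simp

theorem mem_three {α : Type} {X Y W t m b : α} (hP : List.Perm [X, Y, W] [t, m, b]) {P : α → Prop}
    (h1 : P t) (h2 : P m) (h3 : P b) : P X ∧ P Y ∧ P W := by
  have h : ∀ a ∈ [X, Y, W], P a := by
    intro a ha
    have := hP.mem_iff.1 ha
    simp only [List.mem_cons, List.not_mem_nil, or_false] at this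
    rcases this with rfl | rfl | rfl <;> assumption
  exact ⟨h X (by simp), h Y (by simp), h W (by simp)⟩

theorem smovie_classical {hd : Bool} {D : Code} {T : List (Sym2 (ℕ × Bool))}
    (h : TP4.SMovie hd Z D T) : Classical D := by
  cases h with
  | nil => exact classical_empty rfl
  | step h _ _ => exact h
  | three h => exact h
  | inner h => exact h
  | handle _ _ _ _ h => exact h

theorem smovie_inv (hreid : S_REID) (hren : S_REN) (hthree : S_THREE) {hd : Bool} {D : Code}
    {T : List (Sym2 (ℕ × Bool))} (h : TP4.SMovie hd Z D T) :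
    ∃ Ts, InvB (del Z D) Ts ∧ Ts.flatMap tprs = T ∧ (∀ e ∈ T, ¬e.IsDiag) ∧ T.Nodup := by
  induction h with
  | nil =>
    refine ⟨[], ⟨?_, by simp, ?_⟩, rfl, by simp, by simp⟩
    · exact ⟨by simp [TC, del], by simp [TC, del]⟩
    · refine ⟨id, fun p hp => absurd hp (by simp [TC, del]),
        fun p hp => absurd hp (by simp [TC, del]), fun G _ o u _ b => ?_⟩
      exact PC.nil
  | @step D D' T hD hs hm ih =>
    obtain ⟨Ts, h1, h2, h5, h6⟩ := ih
    rcases cstep_del (Z := Z) hs with h | h
    · obtain ⟨Ts', k1, k2⟩ := cstep_liftB hreid hren (wf_del hD.1)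
        (wf_del (smovie_classical hm).1) h h1
      exact ⟨Ts', k1, (sig_flatMap k2).trans h2, h5, h6⟩
    · exact ⟨Ts, by rw [h]; exact h1, h2, h5, h6⟩
  | @three D D' T hD A B C E X Y W t m b x y z hT hP hE hE' hZ hdg hn hm ih =>
    obtain ⟨Ts, h1, h2, h5, h6⟩ := ih
    obtain ⟨c1, c2, c3⟩ := triAt_crossing hT
    have key : ∀ {u v : ℕ} {q : Pass × Pass}, ¬Z (colour u) → ¬Z (colour v) →
        (q.1.crossing = u ∧ q.2.crossing = v ∨ q.1.crossing = v ∧ q.2.crossing = u) →
        ¬Z (colour q.1.crossing) ∧ ¬Z (colour q.2.crossing) := by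
      intro u v q hu hv hq
      rcases hq with ⟨e1, e2⟩ | ⟨e1, e2⟩ <;> rw [e1, e2] <;> exact ⟨by assumption, by assumption⟩
    obtain ⟨⟨x1, x2⟩, ⟨y1, y2⟩, w1, w2⟩ := mem_three hP (P := fun q : Pass × Pass =>
      ¬Z (colour q.1.crossing) ∧ ¬Z (colour q.2.crossing)) (key hZ.1 hZ.2.1 c1)
      (key hZ.1 hZ.2.2 c2) (key hZ.2.1 hZ.2.2 c3)
    obtain ⟨T', k1, k2⟩ := three_lift (D := del Z D) (D' := del Z D') (A := de Z A) (B := de Z B)
      (C := de Z C) (E := de Z E) hthree hT hP
      (by rw [enc_del, hE]; simp only [de_append, de_two_keep x1 x2, de_two_keep y1 y2,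
        de_two_keep w1 w2])
      (by rw [enc_del, hE']; simp only [de_append, de_two_keep x2 x1, de_two_keep y2 y1,
        de_two_keep w2 w1]) h1
    have hprs : tprs T' = prs x y z := by
      simp only [sig, Prod.mk.injEq] at k2
      obtain ⟨⟨e1, e2, e3⟩, e4, e5, e6⟩ := k2
      simp only [tprs, prs, kap, lc, Tri.pa₁, Tri.pb₁, Tri.pc₁, Pass.mate, e1, e2, e3, e4, e5, e6,
        Bool.not_true]
    refine ⟨T' :: Ts, k1, by rw [List.flatMap_cons, hprs, h2], fun e he => ?_, hn⟩
    rcases List.mem_append.1 he with he | he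
    · exact hdg e he
    · exact h5 e he
  | @inner D D' T hD A B C E X Y W t m b x y z hT hP hE hE' hZ hm ih =>
    obtain ⟨c1, c2, c3⟩ := triAt_crossing hT
    have key : ∀ {u v : ℕ} {q : Pass × Pass}, (Z (colour u) ∨ Z (colour v)) →
        (q.1.crossing = u ∧ q.2.crossing = v ∨ q.1.crossing = v ∧ q.2.crossing = u) →
        Z (colour q.1.crossing) ∨ Z (colour q.2.crossing) := by
      intro u v q hu hq
      rcases hq with ⟨e1, e2⟩ | ⟨e1, e2⟩ <;> rw [e1, e2]
      · exact hu
      · exact hu.symm
    obtain ⟨x1, y1, w1⟩ := mem_three hP (P := fun q : Pass × Pass =>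
      Z (colour q.1.crossing) ∨ Z (colour q.2.crossing)) (key (by tauto) c1)
      (key (by tauto) c2) (key (by tauto) c3)
    have e : del Z D = del Z D' := by
      refine enc_inj ?_
      rw [enc_del, enc_del, hE, hE']
      simp only [de_append, de_two_swap x1, de_two_swap y1, de_two_swap w1]
    rw [e]
    exact ih
  | @handle R T x y b hh hD hy hm ih =>
    obtain ⟨Ts, h1, h2, h5, h6⟩ := ih
    rw [del_cons, del_cons, dw_eq_nil hy] at h1
    rw [del_cons, dw_append, dw_eq_nil hy, List.append_nil]
    have hw : WF (passes ((dw Z x, b) :: ([], b) :: del Z R)) := by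
      have := wf_del (Z := Z) (smovie_classical hm).1
      rwa [del_cons, del_cons, dw_eq_nil hy] at this
    have hw' : WF (passes (([], b) :: (dw Z x, b) :: del Z R)) := by
      simpa [passes] using hw
    have hw'' : WF (passes ((dw Z x, b) :: del Z R)) := by
      simpa [passes] using hw
    obtain ⟨Ts₁, k1, k2⟩ := cstep_liftB hreid hren hw' hw
      (.perm _ _ (List.Perm.swap _ _ _)) h1
    obtain ⟨Ts₂, k3, k4⟩ := cstep_liftB hreid hren hw'' hw'
      (.birth b _ ⟨(dw Z x, b), by simp, rfl⟩) k1
    exact ⟨Ts₂, k3, (sig_flatMap (k4.trans k2)).trans h2, h5, h6⟩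

end Pool.Agent.Y874.TP2.T4
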